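import Pool.Agent.N384.MQ.Mult
import Pool.Agent.N84.MD.GB

set_option autoImplicit false

/-! The degrees in the Goldbach graphs of the vertices near families of residues with small Fourier coefficients, in all the
graphs of comparable or somewhat larger sizes (helper7). -/

namespace Pool.Agent.P8H7.GR

open Finset Filter
open Pool.Agent.N384.MQ (MC Flat dis dis_MC fin_formT count_dis)
open Pool.Agent.N625.PT (TCls)
open Pool.Agent.W93.TD (HLs)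
open Pool.Agent.W93.PG (WinP)
open Pool.Agent.N469.GG (Nb)

/-- the number of digits -/
lemma scale (C D V k₀ : ℕ) : ∃ N₀ : ℕ, ∀ N : ℕ, N₀ ≤ N → ∀ M : ℕ, M ≤ C * N → (N : ℝ) ≤ M * Real.log N ^ D →
    1 ≤ Real.log N ∧ 1 ≤ Real.log M ∧ ∃ k : ℕ, k₀ ≤ k ∧ N ≤ 2 ^ k ∧ M ≤ 2 ^ k ∧ 2 ^ k ≤ (2 * C + 2) * N ∧
      (2 : ℝ) ^ k ≤ (k : ℝ) ^ (D + 1) * M ∧ Real.log N ≤ k ∧ 1 / Real.log M ^ (V + 1) ≤ 1 / (k : ℝ) ^ V := by
  obtain ⟨N₁, h1⟩ := Pool.Agent.H373R2.T7.ev_L' (2 * (6 : ℝ) ^ V + 2 * C + 2 + k₀ + 3)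
  have hsqrt : ∀ᶠ N : ℕ in atTop, (2 * C + 2) * Real.log N ^ D * (2 * C + 2) ≤ (N : ℝ) ^ (1 / 2 : ℝ) := by
    have h2 := (isLittleO_log_rpow_atTop (show (0 : ℝ) < 1 / (2 * (D + 1)) by positivity)).tendsto_div_nhds_zero
    have h3 : Tendsto (fun x : ℝ => (2 * (C : ℝ) + 2) * (2 * C + 2) * (Real.log x / x ^ (1 / (2 * ((D : ℝ) + 1)))) ^ D *
        x ^ (-(1 / (2 * ((D : ℝ) + 1))))) atTop (nhds ((2 * (C : ℝ) + 2) * (2 * C + 2) * 0 ^ D * 0)) := by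
      apply Tendsto.mul
      · exact (h2.pow D).const_mul _
      · exact tendsto_rpow_neg_atTop (by positivity)
    rw [mul_zero] at h3
    have h4 := (h3.comp tendsto_natCast_atTop_atTop).eventually (ge_mem_nhds one_pos)
    filter_upwards [h4, eventually_gt_atTop 0] with N hN hN0
    have hN0' : (0 : ℝ) < N := by exact_mod_cast hN0
    simp only [Function.comp] at hN
    have e1 : (N : ℝ) ^ (1 / 2 : ℝ) = (((N : ℝ) ^ (1 / (2 * ((D : ℝ) + 1)))) ^ D) * (N : ℝ) ^ (1 / (2 * ((D : ℝ) + 1))) := by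
      rw [← Real.rpow_natCast, ← Real.rpow_mul hN0'.le, ← Real.rpow_add hN0']
      congr 1
      field_simp
    have hpos : 0 < (N : ℝ) ^ (1 / (2 * ((D : ℝ) + 1))) := by positivity
    rw [Real.rpow_neg hN0'.le, div_pow] at hN
    have hpos2 : 0 < ((N : ℝ) ^ (1 / (2 * ((D : ℝ) + 1)))) ^ D := by positivity
    have e2 : (2 * (C : ℝ) + 2) * (2 * C + 2) * (Real.log N ^ D / ((N : ℝ) ^ (1 / (2 * ((D : ℝ) + 1)))) ^ D) *
        ((N : ℝ) ^ (1 / (2 * ((D : ℝ) + 1))))⁻¹ = ((2 * C + 2) * Real.log N ^ D * (2 * C + 2)) /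
          ((((N : ℝ) ^ (1 / (2 * ((D : ℝ) + 1)))) ^ D) * (N : ℝ) ^ (1 / (2 * ((D : ℝ) + 1)))) := by
      field_simp
    rw [e2, div_le_one (by positivity), ← e1] at hN
    exact hN
  obtain ⟨N₂, h2⟩ := eventually_atTop.1 hsqrt
  refine ⟨N₁ + N₂ + 2, fun N hN M hM1 hM2 => ?_⟩
  have a1 := h1 N (by omega)
  have a2 := h2 N (by omega)
  have hC0 : (0 : ℝ) ≤ C := Nat.cast_nonneg _
  have hk00 : (0 : ℝ) ≤ k₀ := Nat.cast_nonneg _
  have h6V : (0 : ℝ) < (6 : ℝ) ^ V := by positivity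
  have hL1 : 3 ≤ Real.log N := by linarith
  have hL0 : 0 < Real.log N := by linarith
  have hN0 : (0 : ℝ) < N := by exact_mod_cast (by omega : 0 < N)
  have hN1 : 1 ≤ N := by omega
  -- M is at least the square root of N
  have hM3 : (N : ℝ) ^ (1 / 2 : ℝ) ≤ M := by
    have e1 : (N : ℝ) = (N : ℝ) ^ (1 / 2 : ℝ) * (N : ℝ) ^ (1 / 2 : ℝ) := by
      rw [← Real.rpow_add hN0]
      norm_num
    have hp : 0 < (N : ℝ) ^ (1 / 2 : ℝ) := by positivity
    have h3 : Real.log N ^ D ≤ (N : ℝ) ^ (1 / 2 : ℝ) := by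
      refine le_trans ?_ a2
      have : (0 : ℝ) ≤ Real.log N ^ D := by positivity
      nlinarith [mul_nonneg hC0 this, mul_nonneg hC0 (mul_nonneg hC0 this)]
    have h4 : (N : ℝ) ^ (1 / 2 : ℝ) * (N : ℝ) ^ (1 / 2 : ℝ) ≤ M * (N : ℝ) ^ (1 / 2 : ℝ) := by
      rw [← e1]
      exact hM2.trans (mul_le_mul_of_nonneg_left h3 (Nat.cast_nonneg _))
    exact le_of_mul_le_mul_right h4 hp
  have hM0 : (0 : ℝ) < M := lt_of_lt_of_le (by positivity) hM3
  have hlM : Real.log N ≤ 2 * Real.log M := by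
    have h3 := Real.log_le_log (by positivity) hM3
    rw [Real.log_rpow hN0] at h3
    linarith
  have hlM1 : 1 ≤ Real.log M := by linarith
  obtain ⟨P, hP⟩ : ∃ P, P = (C + 1) * N := ⟨_, rfl⟩
  have hNP : N ≤ P := by rw [hP]; nlinarith
  have hMP : M ≤ P := by rw [hP]; nlinarith
  obtain ⟨k, hk⟩ : ∃ k, k = Nat.clog 2 P := ⟨_, rfl⟩
  have hk1 : P ≤ 2 ^ k := by rw [hk]; exact Nat.le_pow_clog (by norm_num) _
  have hk2 : 2 ^ k ≤ 2 * P := by
    have g1 : 2 ^ (k - 1) < P := by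
      rw [hk]
      exact Nat.pow_pred_clog_lt_self (by norm_num) (by omega)
    have g2 : 0 < k := by
      rcases Nat.eq_zero_or_pos k with g3 | g3
      · rw [g3] at hk1
        omega
      · exact g3
    have g3 : 2 ^ k = 2 * 2 ^ (k - 1) := by
      rw [← pow_succ']
      congr 1
      omega
    omega
  have hk3 : 2 ^ k ≤ (2 * C + 2) * N := by
    rw [hP] at hk2
    refine hk2.trans (le_of_eq ?_)
    ring
  have hk3r : (2 : ℝ) ^ k ≤ (2 * C + 2) * N := by exact_mod_cast hk3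
  have hNk : (N : ℝ) ≤ 2 ^ k := by exact_mod_cast hNP.trans hk1
  have hlk : Real.log N ≤ k := by
    have h3 := Real.log_le_log hN0 hNk
    rw [Real.log_pow] at h3
    have hk0 : (0 : ℝ) ≤ k := Nat.cast_nonneg _
    nlinarith [Real.log_two_lt_d9]
  have hk4 : (k : ℝ) ≤ 6 * Real.log M := by
    have h3 : (2 : ℝ) ^ k ≤ M * M := by
      have h4 : (2 * (C : ℝ) + 2) * Real.log N ^ D ≤ M := by
        refine le_trans ?_ (a2.trans hM3)
        have : (0 : ℝ) ≤ (2 * (C : ℝ) + 2) * Real.log N ^ D := by positivity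
        nlinarith
      calc (2 : ℝ) ^ k ≤ (2 * C + 2) * N := hk3r
        _ ≤ (2 * C + 2) * (M * Real.log N ^ D) := mul_le_mul_of_nonneg_left hM2 (by positivity)
        _ = M * ((2 * C + 2) * Real.log N ^ D) := by ring
        _ ≤ M * M := mul_le_mul_of_nonneg_left h4 hM0.le
    have h5 := Real.log_le_log (by positivity) h3
    rw [Real.log_pow, Real.log_mul hM0.ne' hM0.ne'] at h5
    have hk0 : (0 : ℝ) ≤ k := Nat.cast_nonneg _
    nlinarith [Real.log_two_gt_d9]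
  have hk0 : (0 : ℝ) < k := by linarith
  refine ⟨by linarith, hlM1, k, ?_, hNP.trans hk1, hMP.trans hk1, hk3, ?_, hlk, ?_⟩
  · have : (k₀ : ℝ) ≤ k := by linarith
    exact_mod_cast this
  · calc (2 : ℝ) ^ k ≤ (2 * C + 2) * N := hk3r
      _ ≤ k * (M * (k : ℝ) ^ D) := by
          apply mul_le_mul _ _ hN0.le hk0.le
          · linarith
          · exact hM2.trans (mul_le_mul_of_nonneg_left (pow_le_pow_left₀ hL0.le hlk D) hM0.le)
      _ = (k : ℝ) ^ (D + 1) * M := by ring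
  · apply one_div_le_one_div_of_le (by positivity)
    have h5 : (6 : ℝ) ^ V ≤ Real.log M := by linarith
    calc (k : ℝ) ^ V ≤ (6 * Real.log M) ^ V := pow_le_pow_left₀ hk0.le hk4 V
      _ = 6 ^ V * Real.log M ^ V := mul_pow _ _ _
      _ ≤ Real.log M * Real.log M ^ V := mul_le_mul_of_nonneg_right h5 (by positivity)
      _ = Real.log M ^ (V + 1) := by ring

open Classical in
/-- All the vertices near almost all the members of a family of residues with small Fourier coefficients have many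
neighbours, in all the graphs of comparable or somewhat larger sizes. -/
theorem resid (c₁ : ℝ) (n₁ : ℕ)
    (hdeg : ∀ n : ℕ, n₁ ≤ n →
      (c₁ * (n / Real.log n ^ 2) ≤ ((Nb n 0).card : ℝ)) ∧
      (∀ U a N : ℕ, Even a → 2 ≤ a → a ≤ n → 2 * N ≤ n → n < 4 * N → HLs (1 / 2) U N (fun _ : Fin 1 => a) →
        c₁ * (n / Real.log n ^ 2) ≤ ((Nb n a).card : ℝ)) ∧
      (∀ a : ℕ, Even a → n < a → a ≤ 2 * n → WinP (1 / 2) 1 a → c₁ * (n / Real.log n ^ 2) ≤ ((Nb n a).card : ℝ)))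
    (κ : ℤ) (hκ : κ ≠ 0) (B C D K W U : ℕ) :
    ∃ V N₀ : ℕ, ∀ N : ℕ, N₀ ≤ N → ∀ M : ℕ, M ≤ C * N → (N : ℝ) ≤ M * Real.log N ^ D → ∀ [NeZero M]
      (ι : Type) (s : Finset ι) (y : ι → ZMod M), Flat M (1 / Real.log M ^ V) s y → ∀ c : ℤ, |c| ≤ B * N →
      ((s.filter fun i => ¬ ∀ n : ℕ, N ≤ C * n → (n : ℝ) ≤ N * Real.log N ^ K → ∀ a : ℕ,
        |(((a : ℤ) - (c + κ * ((y i).val : ℕ)) : ℤ) : ℝ)| ≤ Real.log N ^ W → Even a → a ≤ 2 * n →
          c₁ * (n / Real.log n ^ 2) ≤ ((Nb n a).card : ℝ)).card : ℝ) ≤ s.card / Real.log N ^ U := by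
  obtain ⟨V, k₀, h0⟩ := fin_formT (D + 1) κ hκ (fun k p => ∃ c : ℤ, |c| ≤ B * (2 : ℤ) ^ k ∧
    1 / (k : ℝ) ^ U < ∑ v ∈ range (2 ^ k), (if ∀ n : ℕ, 2 ^ k ≤ ((2 * C + 2) * C) * n → n ≤ k ^ K * 2 ^ k → ∀ a : ℕ,
      |(a : ℤ) - (c + κ * v)| ≤ (k : ℤ) ^ W → Even a → a ≤ 2 * n → c₁ * (n / Real.log n ^ 2) ≤ ((Nb n a).card : ℝ)
      then 0 else p v)) (fun C' hC => by
      obtain ⟨k₀, h1⟩ := Pool.Agent.N84.MD.GB.core hC B ((2 * C + 2) * C) K W U c₁ n₁ hdeg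
      refine ⟨k₀, fun k hk p hp => ?_⟩
      rintro ⟨c, hc, hlt⟩
      exact absurd (h1 k hk p hp c (by exact_mod_cast hc)) (not_le.2 hlt))
  obtain ⟨N₀, h1⟩ := scale C D V k₀
  refine ⟨V + 1, N₀, fun N hN M hM1 hM2 _ ι s y hf c hc => ?_⟩
  obtain ⟨hL1, hLM, k, hk, g1, g2, g3, g4, g5, g6⟩ := h1 N hN M hM1 hM2
  rcases s.eq_empty_or_nonempty with rfl | hs
  · simp
  have hMC := dis_MC (D + 1) V k M s hs y g2 g4 (hf.mono g6)
  have h2 := h0 k hk _ hMC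
  push Not at h2
  have hc2 : |c| ≤ B * (2 : ℤ) ^ k := by
    refine hc.trans ?_
    have : (N : ℤ) ≤ (2 : ℤ) ^ k := by exact_mod_cast g1
    exact mul_le_mul_of_nonneg_left this (Int.natCast_nonneg _)
  have h3 := count_dis s hs y k g2 (fun v => ∀ n : ℕ, 2 ^ k ≤ ((2 * C + 2) * C) * n → n ≤ k ^ K * 2 ^ k → ∀ a : ℕ,
      |(a : ℤ) - (c + κ * v)| ≤ (k : ℤ) ^ W → Even a → a ≤ 2 * n → c₁ * (n / Real.log n ^ 2) ≤ ((Nb n a).card : ℝ)) _
      (h2 c hc2)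
  have hL0 : 0 ≤ Real.log (N : ℝ) := by linarith
  refine le_trans (Nat.cast_le.2 (card_le_card fun i hi => ?_)) (h3.trans ?_)
  · rw [mem_filter] at hi ⊢
    refine ⟨hi.1, fun hcon => hi.2 ?_⟩
    intro n hn1 hn2 a ha
    refine hcon n ?_ ?_ a ?_
    · calc 2 ^ k ≤ (2 * C + 2) * N := g3
        _ ≤ (2 * C + 2) * (C * n) := Nat.mul_le_mul_left _ hn1
        _ = _ := by ring
    · have h5 : (n : ℝ) ≤ ((k ^ K * 2 ^ k : ℕ) : ℝ) := by
        push_cast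
        refine hn2.trans ?_
        rw [mul_comm]
        apply mul_le_mul (pow_le_pow_left₀ hL0 g5 K) (by exact_mod_cast g1) (Nat.cast_nonneg _) (by positivity)
      exact_mod_cast h5
    · have h5 : ((|(a : ℤ) - (c + κ * ((y i).val : ℕ))| : ℤ) : ℝ) ≤ ((((k : ℕ) : ℤ) ^ W : ℤ) : ℝ) := by
        push_cast at ha ⊢
        exact ha.trans (pow_le_pow_left₀ hL0 g5 W)
      exact_mod_cast h5
  · rw [mul_one_div]
    apply div_le_div_of_nonneg_left (Nat.cast_nonneg _) (by positivity)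
    exact pow_le_pow_left₀ hL0 g5 U

end Pool.Agent.P8H7.GR
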